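import Pool.Agent.H89.FM.Targets2
import Pool.Agent.H89.Cubic.Div

/-!
Row GCD of the board fmo_modules (`MP_52e316_nt`): sums of greatest common divisors.
-/

set_option autoImplicit false

open Finset

namespace Pool.Agent.H55.FM

open Pool.Agent.H31.CN Pool.Agent.H89.FM

theorem two_pow_le_card_divisors {n : ℕ} (hn : n ≠ 0) :
    2 ^ n.primeFactors.card ≤ n.divisors.card := by
  rw [Nat.card_divisors hn]
  refine Finset.pow_card_le_prod _ _ _ fun p hp => ?_
  have h1 : 0 < n.factorization p := by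
    have h2 := Nat.mem_primeFactors.mp hp
    exact h2.1.factorization_pos_of_dvd hn h2.2.1
  omega

theorem harm_le {N : ℕ} : ∑ j ∈ Icc 1 N, (1 / (j : ℝ)) ≤ 1 + Real.log N := by
  have h := harmonic_le_one_add_log N
  rw [harmonic_eq_sum_Icc] at h
  push_cast at h
  simpa [one_div] using h

theorem inner (N g : ℕ) (hg : 1 ≤ g) :
    ∑ f ∈ (Icc 1 N).filter (fun f => g ∣ f), (g : ℝ) / f ≤ ∑ j ∈ Icc 1 N, (1 / (j : ℝ)) := by
  have hg0 : (g : ℝ) ≠ 0 := by
    have : g ≠ 0 := by omega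
    exact_mod_cast this
  have h1 : ∑ f ∈ (Icc 1 N).filter (fun f => g ∣ f), (g : ℝ) / f =
      ∑ j ∈ ((Icc 1 N).filter (fun f => g ∣ f)).image (fun f => f / g), (1 / (j : ℝ)) := by
    rw [Finset.sum_image]
    · refine Finset.sum_congr rfl fun f hf => ?_
      obtain ⟨c, rfl⟩ := (Finset.mem_filter.mp hf).2
      rw [Nat.mul_div_cancel_left _ (by omega)]
      push_cast
      rw [div_mul_eq_div_div, div_self hg0]
    · intro f hf f' hf' e
      obtain ⟨c, rfl⟩ := (Finset.mem_filter.mp hf).2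
      obtain ⟨c', rfl⟩ := (Finset.mem_filter.mp hf').2
      simp only [Nat.mul_div_cancel_left _ (show 0 < g by omega)] at e
      rw [e]
  rw [h1]
  refine Finset.sum_le_sum_of_subset_of_nonneg ?_ fun j _ _ => by positivity
  intro j hj
  obtain ⟨f, hf, rfl⟩ := Finset.mem_image.mp hj
  rw [Finset.mem_filter, Finset.mem_Icc] at hf
  rw [Finset.mem_Icc]
  obtain ⟨⟨hf1, hf2⟩, c, rfl⟩ := hf
  rw [Nat.mul_div_cancel_left _ (by omega)]
  refine ⟨Nat.pos_of_ne_zero fun h => ?_, ?_⟩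
  · rw [h, mul_zero] at hf1
    omega
  · exact le_trans (Nat.le_mul_of_pos_left c (by omega)) hf2

theorem gcd_sum (N a : ℕ) (ha : 1 ≤ a) :
    ∑ f ∈ Icc 1 N, (Nat.gcd f a : ℝ) / f ≤ a.divisors.card * (1 + Real.log N) := by
  calc ∑ f ∈ Icc 1 N, (Nat.gcd f a : ℝ) / f
      ≤ ∑ f ∈ Icc 1 N, ∑ g ∈ a.divisors.filter (fun g => g ∣ f), (g : ℝ) / f := by
        refine Finset.sum_le_sum fun f hf => ?_
        refine Finset.single_le_sum (f := fun g : ℕ => (g : ℝ) / f) (fun g _ => by positivity) ?_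
        rw [Finset.mem_filter, Nat.mem_divisors]
        exact ⟨⟨Nat.gcd_dvd_right f a, by omega⟩, Nat.gcd_dvd_left f a⟩
    _ = ∑ g ∈ a.divisors, ∑ f ∈ (Icc 1 N).filter (fun f => g ∣ f), (g : ℝ) / f := by
        simp_rw [Finset.sum_filter]
        exact Finset.sum_comm
    _ ≤ ∑ _g ∈ a.divisors, (1 + Real.log N) := by
        refine Finset.sum_le_sum fun g hg => ?_
        exact (inner N g (Nat.pos_of_mem_divisors hg)).trans harm_le
    _ = a.divisors.card * (1 + Real.log N) := by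
        rw [Finset.sum_const, nsmul_eq_mul]

/-- GCD -/
theorem pf_GCD : T_GCD := by
  intro ε hε
  obtain ⟨C, hC, hdiv⟩ := Pool.Agent.H89.Cubic.div_bound (ε / 3) (by positivity)
  refine ⟨C ^ 3 * (1 + 3 / ε), by positivity, fun A a hA ha => ?_⟩
  have ha' : (1 : ℝ) ≤ a := by exact_mod_cast ha
  have hA0 : (0 : ℝ) < A := by linarith
  have hN : ((⌊A⌋₊ : ℕ) : ℝ) ≤ A := Nat.floor_le (by linarith)
  have hN1 : 1 ≤ ⌊A⌋₊ := Nat.le_floor (by exact_mod_cast hA)
  have hlog : Real.log (⌊A⌋₊ : ℕ) ≤ Real.log A :=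
    Real.log_le_log (by exact_mod_cast hN1) hN
  have h1 : ∑ f ∈ Sq ⌊A⌋₊, 3 ^ f.primeFactors.card * (Nat.gcd f a : ℝ) / f ≤
      ∑ f ∈ Icc 1 ⌊A⌋₊, (C * A ^ (ε / 3)) ^ 2 * ((Nat.gcd f a : ℝ) / f) := by
    calc ∑ f ∈ Sq ⌊A⌋₊, 3 ^ f.primeFactors.card * (Nat.gcd f a : ℝ) / f
        ≤ ∑ f ∈ Sq ⌊A⌋₊, (C * A ^ (ε / 3)) ^ 2 * ((Nat.gcd f a : ℝ) / f) := by
          refine Finset.sum_le_sum fun f hf => ?_
          have hf' := Finset.mem_Icc.mp (Finset.mem_filter.mp hf).1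
          have hf0 : f ≠ 0 := by omega
          rw [mul_div_assoc]
          refine mul_le_mul_of_nonneg_right ?_ (by positivity)
          have h2 : (2 : ℝ) ^ f.primeFactors.card ≤ C * A ^ (ε / 3) := by
            calc (2 : ℝ) ^ f.primeFactors.card ≤ (f.divisors.card : ℝ) := by
                  exact_mod_cast two_pow_le_card_divisors hf0
              _ ≤ C * (f : ℝ) ^ (ε / 3) := hdiv f hf'.1
              _ ≤ C * A ^ (ε / 3) := by
                  refine mul_le_mul_of_nonneg_left ?_ hC.le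
                  refine Real.rpow_le_rpow (by positivity) ?_ (by positivity)
                  exact le_trans (by exact_mod_cast hf'.2) hN
          calc (3 : ℝ) ^ f.primeFactors.card ≤ 4 ^ f.primeFactors.card :=
                pow_le_pow_left₀ (by norm_num) (by norm_num) _
            _ = (2 ^ f.primeFactors.card) ^ 2 := by
                rw [← pow_mul, mul_comm, pow_mul]
                norm_num
            _ ≤ (C * A ^ (ε / 3)) ^ 2 := pow_le_pow_left₀ (by positivity) h2 2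
      _ ≤ _ := by
          refine Finset.sum_le_sum_of_subset_of_nonneg (Finset.filter_subset _ _) ?_
          intro f _ _
          positivity
  have h3 : (a.divisors.card : ℝ) ≤ C * (a : ℝ) ^ ε := by
    refine (hdiv a ha).trans (mul_le_mul_of_nonneg_left ?_ hC.le)
    exact Real.rpow_le_rpow_of_exponent_le ha' (by linarith)
  have h4 : 1 + Real.log (⌊A⌋₊ : ℕ) ≤ (1 + 3 / ε) * A ^ (ε / 3) := by
    have h5 : Real.log A ≤ A ^ (ε / 3) / (ε / 3) := Real.log_le_rpow_div hA0.le (by positivity)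
    have h6 : 1 ≤ A ^ (ε / 3) := Real.one_le_rpow hA (by positivity)
    have e : A ^ (ε / 3) / (ε / 3) = 3 / ε * A ^ (ε / 3) := by
      field_simp
    rw [e] at h5
    nlinarith
  have h7 : A ^ (ε / 3) * A ^ (ε / 3) * A ^ (ε / 3) = A ^ ε := by
    rw [← Real.rpow_add hA0, ← Real.rpow_add hA0]
    congr 1
    ring
  have hlog0 : 0 ≤ 1 + Real.log (⌊A⌋₊ : ℕ) := by
    have := Real.log_nonneg (show (1 : ℝ) ≤ (⌊A⌋₊ : ℕ) by exact_mod_cast hN1)
    linarith
  calc ∑ f ∈ Sq ⌊A⌋₊, 3 ^ f.primeFactors.card * (Nat.gcd f a : ℝ) / f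
      ≤ (C * A ^ (ε / 3)) ^ 2 * ∑ f ∈ Icc 1 ⌊A⌋₊, (Nat.gcd f a : ℝ) / f := by
        rw [Finset.mul_sum]
        exact h1
    _ ≤ (C * A ^ (ε / 3)) ^ 2 * (a.divisors.card * (1 + Real.log (⌊A⌋₊ : ℕ))) :=
        mul_le_mul_of_nonneg_left (gcd_sum _ a ha) (by positivity)
    _ ≤ (C * A ^ (ε / 3)) ^ 2 * ((C * (a : ℝ) ^ ε) * ((1 + 3 / ε) * A ^ (ε / 3))) := by
        refine mul_le_mul_of_nonneg_left ?_ (by positivity)
        exact mul_le_mul h3 h4 hlog0 (by positivity)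
    _ = C ^ 3 * (1 + 3 / ε) * ((A ^ (ε / 3) * A ^ (ε / 3) * A ^ (ε / 3)) * (a : ℝ) ^ ε) := by
        ring
    _ = C ^ 3 * (1 + 3 / ε) * (A * a) ^ ε := by
        rw [h7, Real.mul_rpow hA0.le (by linarith)]

end Pool.Agent.H55.FM
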