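import Pool.Agent.H61.FM.Targets
import Pool.Agent.H89.FM.Targets1

/-!
Row LFK of the board fmc_modules (`MP_52e316_nt`): the `L`-function as a rapidly convergent series.
-/

set_option autoImplicit false

open MeasureTheory Set Filter NumberField
open scoped Real nonZeroDivisors

namespace Pool.Agent.H55.FM

open Pool.Agent.H31.CN Pool.Agent.H89.FM Pool.Agent.H61.FM

open Classical in
theorem filter_one (hFLS : Pool.Agent.H89.FM.T_FLS) (Q : QF) :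
    (Ls 1).filter (fun L => Dv 1 L Q) = {⊤} := by
  ext L
  rw [Finset.mem_filter, Finset.mem_singleton, (hFLS 1 L le_rfl).1, AddSubgroup.index_eq_one]
  refine ⟨fun h => h.1, fun h => ⟨h, fun v _ => ?_⟩⟩
  rw [Nat.cast_one]
  exact one_dvd _

/-- LFK -/
theorem pf_LFK (hLF2 : T_LF2) (hMUL : T_MUL) (hRSX : T_RSX) (hEZR : T_EZR) (hTWS : T_TWS)
    (hFLS : Pool.Agent.H89.FM.T_FLS) (hQZV : T_QZV) : T_LFK := by
  classical
  intro K _ _ D hIQ ψ F hF τ s hτ hτr hs hs1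
  obtain ⟨R⟩ := hRSX K D hIQ
  have h2 := hLF2 K D hIQ R ψ F hF 1 squarefree_one s hs hs1
  rw [(hMUL K ψ).1, one_mul] at h2
  have h3 : ∀ c, HasSum (fun J : (Ideal (𝓞 K))⁰ =>
      if ClassGroup.mk0 J = c⁻¹ then Kk τ s ((nm J : ℝ) / Real.sqrt D) else 0)
      (Ez s 1 ⊤ (zx (R.Q c)) (zy (R.Q c)) / un K) := by
    intro c
    have hob := R.ob c
    have hQ1 : 0 < (R.Q c).1 := (R.fd c).1
    have hQd : dsc (R.Q c) = D := (R.fd c).2
    have hD0 : 0 < dsc (R.Q c) := by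
      rw [hQd]
      exact_mod_cast hIQ.pos
    have hy := hQZV (R.Q c)
    have h4 := hEZR τ s (zx (R.Q c)) (zy (R.Q c)) hτ hτr (hy 0 hQ1 hD0).1
    have hnm : nm (1 : (Ideal (𝓞 K))⁰) = 1 := by
      unfold nm
      simp
    have hmem : ∀ v : ℤ × ℤ, v ∈ lt K (R.α c) (R.β c)
        (((1 : (Ideal (𝓞 K))⁰) : Ideal (𝓞 K)) * (R.I c : Ideal (𝓞 K))) := by
      intro v
      rw [Submonoid.coe_one, one_mul]
      exact (hob.mem _).mpr ⟨v, rfl⟩
    have e : (fun v : ℤ × ℤ => if v ∈ lt K (R.α c) (R.β c)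
        (((1 : (Ideal (𝓞 K))⁰) : Ideal (𝓞 K)) * (R.I c : Ideal (𝓞 K))) ∧ v ≠ 0 then
        (fun r : ℝ => Kk τ s (r / Real.sqrt D)) ((val (R.Q c) v : ℝ) / nm (1 : (Ideal (𝓞 K))⁰))
          else 0) =
        fun v : ℤ × ℤ => if v = 0 then 0 else Kk τ s (qz (zx (R.Q c)) (zy (R.Q c)) v) := by
      funext v
      by_cases hv : v = 0
      · rw [if_pos hv, if_neg (fun h => h.2 hv)]
      · rw [if_neg hv, if_pos ⟨hmem v, hv⟩, hnm, (hy v hQ1 hD0).2, hQd, Nat.cast_one, div_one]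
        norm_cast
    have h5 := hTWS K D R.σ hIQ (R.I c) 1 (R.α c) (R.β c) (R.Q c) hob
      (fun r => Kk τ s (r / Real.sqrt D)) (Ez s 1 ⊤ (zx (R.Q c)) (zy (R.Q c))) (by
        rw [e]
        exact h4)
    rw [map_one, mul_one, R.cl] at h5
    exact h5
  have h6 : HasSum (fun J : (Ideal (𝓞 K))⁰ => ∑ c, (((ψ c)⁻¹ : ℂˣ) : ℂ) *
      (if ClassGroup.mk0 J = c⁻¹ then Kk τ s ((nm J : ℝ) / Real.sqrt D) else 0))
      (∑ c, (((ψ c)⁻¹ : ℂˣ) : ℂ) * (Ez s 1 ⊤ (zx (R.Q c)) (zy (R.Q c)) / un K)) :=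
    hasSum_sum fun c _ => (h3 c).mul_left _
  have e1 : (fun J : (Ideal (𝓞 K))⁰ => ∑ c, (((ψ c)⁻¹ : ℂˣ) : ℂ) *
      (if ClassGroup.mk0 J = c⁻¹ then Kk τ s ((nm J : ℝ) / Real.sqrt D) else 0)) =
      fun J : (Ideal (𝓞 K))⁰ => pv ψ J * Kk τ s ((nm J : ℝ) / Real.sqrt D) := by
    funext J
    rw [Finset.sum_eq_single (ClassGroup.mk0 J)⁻¹]
    · rw [inv_inv, if_pos rfl, map_inv, inv_inv]
      rfl
    · intro c _ hc
      rw [if_neg, mul_zero]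
      intro h
      apply hc
      rw [h, inv_inv]
    · intro h
      exact absurd (Finset.mem_univ _) h
  have e2 : (∑ c, (((ψ c)⁻¹ : ℂˣ) : ℂ) * (Ez s 1 ⊤ (zx (R.Q c)) (zy (R.Q c)) / un K)) =
      gG s * (D : ℂ) ^ (s / 2) * F s := by
    rw [h2, Finset.mul_sum]
    refine Finset.sum_congr rfl fun c _ => ?_
    rw [filter_one hFLS, Finset.sum_singleton]
    ring
  rw [e1, e2] at h6
  exact h6

end Pool.Agent.H55.FM
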