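import Pool.Agent.H89.FM.Targets2

/-!
Row NPD of the board fmo_modules (`MP_52e316_nt`): the forms which are not positive definite are far
away.
-/

set_option autoImplicit false

namespace Pool.Agent.H55.FM

open Pool.Agent.H31.CN Pool.Agent.H89.FM

theorem npd_real {Y p1 p2 p3 q1 q2 q3 : ℝ} (hY : 1 ≤ Y) (h1 : 0 < p1) (h2 : |p2| ≤ 100 * Y)
    (h1' : p1 ≤ 100 * Y) (h3 : p3 ≤ 100 * Y) (hd : Y ^ 2 / 100 ≤ 4 * p1 * p3 - p2 ^ 2)
    (hq : q1 ≤ 0 ∨ 4 * q1 * q3 - q2 ^ 2 ≤ 0) :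
    Y ^ 2 / 10 ^ 12 ≤ (p1 - q1) ^ 2 + (p2 - q2) ^ 2 + (p3 - q3) ^ 2 := by
  have hp13 : 0 < p1 * p3 := by nlinarith [sq_nonneg p2]
  have hp3 : 0 < p3 := by
    by_contra h
    push Not at h
    nlinarith
  rcases hq with hq | hq
  · have h4 : Y / 40000 ≤ p1 := by
      have h5 : Y ^ 2 / 100 ≤ 4 * p1 * (100 * Y) := by
        have : 4 * p1 * p3 ≤ 4 * p1 * (100 * Y) :=
          mul_le_mul_of_nonneg_left h3 (by linarith)
        nlinarith [sq_nonneg p2]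
      by_contra h
      push Not at h
      nlinarith
    have h5 : Y / 40000 ≤ p1 - q1 := by linarith
    have h6 : (Y / 40000) ^ 2 ≤ (p1 - q1) ^ 2 := pow_le_pow_left₀ (by linarith) h5 2
    nlinarith [sq_nonneg (p2 - q2), sq_nonneg (p3 - q3), sq_nonneg Y]
  · by_contra hcon
    push Not at hcon
    have hY6 : 0 < Y / 10 ^ 6 := by positivity
    have e : Y ^ 2 / 10 ^ 12 = (Y / 10 ^ 6) ^ 2 := by ring
    rw [e] at hcon
    have a1 : |p1 - q1| < Y / 10 ^ 6 := abs_lt_of_sq_lt_sq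
      (by nlinarith [sq_nonneg (p2 - q2), sq_nonneg (p3 - q3)]) hY6.le
    have a2 : |p2 - q2| < Y / 10 ^ 6 := abs_lt_of_sq_lt_sq
      (by nlinarith [sq_nonneg (p1 - q1), sq_nonneg (p3 - q3)]) hY6.le
    have a3 : |p3 - q3| < Y / 10 ^ 6 := abs_lt_of_sq_lt_sq
      (by nlinarith [sq_nonneg (p2 - q2), sq_nonneg (p1 - q1)]) hY6.le
    have b1 : |4 * (p1 - q1) * p3| ≤ 4 * (Y / 10 ^ 6) * (100 * Y) := by
      rw [abs_mul, abs_mul, abs_of_pos (show (0 : ℝ) < 4 by norm_num), abs_of_pos hp3]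
      exact mul_le_mul (mul_le_mul_of_nonneg_left a1.le (by norm_num)) h3 hp3.le (by positivity)
    have hq1 : |q1| ≤ 101 * Y := by
      rw [abs_le]
      have := abs_lt.mp a1
      constructor <;> linarith [this.1, this.2]
    have b2 : |4 * q1 * (p3 - q3)| ≤ 4 * (101 * Y) * (Y / 10 ^ 6) := by
      rw [abs_mul, abs_mul, abs_of_pos (show (0 : ℝ) < 4 by norm_num)]
      exact mul_le_mul (mul_le_mul_of_nonneg_left hq1 (by norm_num)) a3.le (abs_nonneg _)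
        (by positivity)
    have hq2 : |p2 + q2| ≤ 201 * Y := by
      have c1 := abs_lt.mp a2
      have c2 := abs_le.mp h2
      rw [abs_le]
      constructor <;> linarith [c1.1, c1.2, c2.1, c2.2]
    have b3 : |(p2 - q2) * (p2 + q2)| ≤ (Y / 10 ^ 6) * (201 * Y) := by
      rw [abs_mul]
      exact mul_le_mul a2.le hq2 (abs_nonneg _) hY6.le
    have c1 := (abs_le.mp b1).2
    have c2 := (abs_le.mp b2).2
    have c3 := (abs_le.mp b3).1
    have e2 : (4 * p1 * p3 - p2 ^ 2) - (4 * q1 * q3 - q2 ^ 2) =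
        4 * (p1 - q1) * p3 + 4 * q1 * (p3 - q3) - (p2 - q2) * (p2 + q2) := by ring
    have h7 : Y ^ 2 / 100 ≤ 4 * (Y / 10 ^ 6) * (100 * Y) + 4 * (101 * Y) * (Y / 10 ^ 6) +
        (Y / 10 ^ 6) * (201 * Y) := by linarith
    have h8 : 4 * (Y / 10 ^ 6) * (100 * Y) + 4 * (101 * Y) * (Y / 10 ^ 6) +
        (Y / 10 ^ 6) * (201 * Y) = 1005 / 10 ^ 6 * Y ^ 2 := by ring
    rw [h8] at h7
    nlinarith

/-- NPD -/
theorem pf_NPD : T_NPD := by
  intro Y ρ P Q hY hρ hG hQ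
  have h := npd_real (p1 := ρ * P.1) (p2 := P.2.1) (p3 := P.2.2 / ρ) (q1 := ρ * Q.1)
    (q2 := Q.2.1) (q3 := Q.2.2 / ρ) hY (mul_pos hρ hG.pos) hG.b hG.a
    (by rw [div_le_iff₀ hρ]; exact hG.c)
    (by
      have e : 4 * (ρ * P.1) * (P.2.2 / ρ) = 4 * P.1 * P.2.2 := by field_simp
      rw [e]
      exact hG.d)
    (by
      have e : 4 * (ρ * (Q.1 : ℝ)) * ((Q.2.2 : ℝ) / ρ) - (Q.2.1 : ℝ) ^ 2 = (dsc Q : ℝ) := by
        unfold dsc
        push_cast
        field_simp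
      rw [e]
      rw [not_and_or, not_lt, not_lt] at hQ
      rcases hQ with hQ | hQ
      · left
        have : (Q.1 : ℝ) ≤ 0 := by exact_mod_cast hQ
        exact mul_nonpos_of_nonneg_of_nonpos hρ.le this
      · right
        exact_mod_cast hQ)
  refine h.trans (le_of_eq ?_)
  unfold dq rl
  ring

end Pool.Agent.H55.FM
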