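import Pool.Agent.H89.FM.Targets2

/-!
Row PTW of the board fmo_modules (`MP_52e316_nt`): the pointwise bound.
-/

set_option autoImplicit false

open Finset

namespace Pool.Agent.H55.FM

open Pool.Agent.H31.CN Pool.Agent.H89.FM

/-- PTW -/
theorem pf_PTW (hRAB : T_RAB) (hRMW : T_RMW) (hGCD : T_GCD) : T_PTW := by
  intro ε hε
  obtain ⟨C, hC, h⟩ := hGCD (ε / 2) (by positivity)
  refine ⟨C ^ 2, by positivity, fun A w Q hA hw hQ hv => ?_⟩
  have hA0 : 0 < A := by linarith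
  have ha : 1 ≤ Q.1.natAbs := Int.natAbs_pos.mpr hQ
  have hb : 1 ≤ (val Q w).natAbs := Int.natAbs_pos.mpr hv
  have ea : ((Q.1.natAbs : ℕ) : ℝ) = |(Q.1 : ℝ)| := by
    rw [Nat.cast_natAbs, Int.cast_abs]
  have eb : (((val Q w).natAbs : ℕ) : ℝ) = |(val Q w : ℝ)| := by
    rw [Nat.cast_natAbs, Int.cast_abs]
  have ha' : (1 : ℝ) ≤ |(Q.1 : ℝ)| := by rw [← ea]; exact_mod_cast ha
  have hb' : (1 : ℝ) ≤ |(val Q w : ℝ)| := by rw [← eb]; exact_mod_cast hb
  have h1 := h A Q.1.natAbs hA ha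
  have h2 := h A (val Q w).natAbs hA hb
  rw [ea] at h1
  rw [eb] at h2
  have hle : Tw A w Q ≤ (∑ f ∈ Sq ⌊A⌋₊, 3 ^ f.primeFactors.card * (Nat.gcd f Q.1.natAbs : ℝ) / f) *
      (∑ m ∈ Sq ⌊A⌋₊, 3 ^ m.primeFactors.card * (Nat.gcd m (val Q w).natAbs : ℝ) / m) := by
    unfold Tw
    rw [Finset.sum_mul_sum]
    refine Finset.sum_le_sum fun f hf => Finset.sum_le_sum fun m hm => ?_
    have hf' := Finset.mem_filter.mp hf
    have hm' := Finset.mem_filter.mp hm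
    have hf1 : (0 : ℝ) < f := by
      have : 0 < f := (Finset.mem_Icc.mp hf'.1).1
      exact_mod_cast this
    have hm1 : (0 : ℝ) < m := by
      have : 0 < m := (Finset.mem_Icc.mp hm'.1).1
      exact_mod_cast this
    have h3 := hRAB f Q hf'.2
    have h4 := hRMW m w Q hm'.2 hw
    have h5 : (1 : ℝ) ≤ 3 ^ m.primeFactors.card := one_le_pow₀ (by norm_num)
    calc (1 / ((f : ℝ) ^ 2 * m)) * (∑ L ∈ Ls f, |Rn f L Q|) * |Rn m (Lw m w) Q|
        ≤ (1 / ((f : ℝ) ^ 2 * m)) * (3 ^ f.primeFactors.card * (f : ℝ) * Nat.gcd f Q.1.natAbs) *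
          (3 ^ m.primeFactors.card * (Nat.gcd m (val Q w).natAbs : ℝ)) := by
          refine mul_le_mul (mul_le_mul_of_nonneg_left h3 (by positivity)) ?_ (abs_nonneg _)
            (by positivity)
          refine h4.trans ?_
          exact le_mul_of_one_le_left (by positivity) h5
      _ = _ := by
          field_simp
  have hn1 : 0 ≤ ∑ m ∈ Sq ⌊A⌋₊, 3 ^ m.primeFactors.card *
      (Nat.gcd m (val Q w).natAbs : ℝ) / m := Finset.sum_nonneg fun m _ => by positivity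
  calc Tw A w Q ≤ _ := hle
    _ ≤ (C * (A * |(Q.1 : ℝ)|) ^ (ε / 2)) * (C * (A * |(val Q w : ℝ)|) ^ (ε / 2)) :=
        mul_le_mul h1 h2 hn1 (by positivity)
    _ = C ^ 2 * ((A * |(Q.1 : ℝ)|) * (A * |(val Q w : ℝ)|)) ^ (ε / 2) := by
        rw [Real.mul_rpow (x := A * |(Q.1 : ℝ)|) (y := A * |(val Q w : ℝ)|) (by positivity)
          (by positivity)]
        ring
    _ ≤ C ^ 2 * ((A * |(Q.1 : ℝ)| * |(val Q w : ℝ)|) ^ 2) ^ (ε / 2) := by
        refine mul_le_mul_of_nonneg_left (Real.rpow_le_rpow (by positivity) ?_ (by positivity))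
          (by positivity)
        have h6 : 1 ≤ |(Q.1 : ℝ)| * |(val Q w : ℝ)| := one_le_mul_of_one_le_of_one_le ha' hb'
        have h7 : 0 ≤ A ^ 2 * (|(Q.1 : ℝ)| * |(val Q w : ℝ)|) := by positivity
        nlinarith
    _ = C ^ 2 * (A * |(Q.1 : ℝ)| * |(val Q w : ℝ)|) ^ ε := by
        congr 1
        rw [← Real.rpow_natCast (A * |(Q.1 : ℝ)| * |(val Q w : ℝ)|) 2,
          ← Real.rpow_mul (by positivity)]
        congr 1
        push_cast
        ring

end Pool.Agent.H55.FM
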