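import Pool.Agent.H61.FM.Targets

/-!
Row SFS of the board fmc_modules (`MP_52e316_nt`): the sum of `b ^ (-1/2)` over the squarefull
numbers.
-/

set_option autoImplicit false

open Finset

namespace Pool.Agent.H55.FM

open Pool.Agent.H31.CN Pool.Agent.H89.FM Pool.Agent.H61.FM

/-- a squarefull number is `c ^ 2 * d ^ 3` -/
theorem full_eq {b : ℕ} (hb : 1 ≤ b) (h : Full b) : ∃ c d : ℕ, 1 ≤ c ∧ 1 ≤ d ∧ b = c ^ 2 * d ^ 3 := by
  obtain ⟨e, c₀, he, hsq⟩ := Nat.sq_mul_squarefree b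
  have hc₀ : c₀ ≠ 0 := by
    intro h0
    rw [h0] at he
    simp at he
    omega
  have he0 : e ≠ 0 := hsq.ne_zero
  have hdvd : e ∣ c₀ := by
    have h1 : ∀ p ∈ e.primeFactors, p ∣ c₀ := by
      intro p hp
      have hpp := Nat.prime_of_mem_primeFactors hp
      have hpe := Nat.dvd_of_mem_primeFactors hp
      by_contra hcon
      have h2 : p ^ 2 ∣ b := h p hpp (by rw [← he]; exact hpe.mul_left _)
      have h3 : Nat.Coprime (p ^ 2) (c₀ ^ 2) :=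
        Nat.Coprime.pow 2 2 ((Nat.Prime.coprime_iff_not_dvd hpp).mpr hcon)
      have h4 : p ^ 2 ∣ e := by
        rw [← he] at h2
        exact h3.dvd_of_dvd_mul_left h2
      have h5 := hsq p (by rw [← pow_two]; exact h4)
      exact hpp.one_lt.ne' (Nat.isUnit_iff.mp h5)
    rw [← Nat.prod_primeFactors_of_squarefree hsq]
    exact Finset.prod_primes_dvd _ (fun p hp => (Nat.prime_of_mem_primeFactors hp).prime) h1
  obtain ⟨c, rfl⟩ := hdvd
  refine ⟨c, e, Nat.pos_of_ne_zero fun h0 => hc₀ (by rw [h0, mul_zero]), Nat.pos_of_ne_zero he0, ?_⟩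
  rw [← he]
  ring

/-- SFS -/
theorem pf_SFS : T_SFS := by
  classical
  have hs : Summable (fun d : ℕ => (d : ℝ) ^ (-(3 / 2) : ℝ)) :=
    Real.summable_nat_rpow.mpr (by norm_num)
  refine ⟨(∑' d : ℕ, (d : ℝ) ^ (-(3 / 2) : ℝ)) + 1, ?_, fun N hN => ?_⟩
  · have : 0 ≤ ∑' d : ℕ, (d : ℝ) ^ (-(3 / 2) : ℝ) := tsum_nonneg fun d => by positivity
    linarith
  have hch : ∀ b : ℕ, ∃ p : ℕ × ℕ, b ∈ (Finset.Icc 1 N).filter Full →
      1 ≤ p.1 ∧ 1 ≤ p.2 ∧ b = p.1 ^ 2 * p.2 ^ 3 := by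
    intro b
    by_cases hb : b ∈ (Finset.Icc 1 N).filter Full
    · obtain ⟨h1, h2⟩ := Finset.mem_filter.mp hb
      obtain ⟨c, d, hc, hd, he⟩ := full_eq (Finset.mem_Icc.mp h1).1 h2
      exact ⟨(c, d), fun _ => ⟨hc, hd, he⟩⟩
    · exact ⟨(0, 0), fun h => absurd h hb⟩
  choose g hg using hch
  have hval : ∀ b ∈ (Finset.Icc 1 N).filter Full, (b : ℝ) ^ (-(1 / 2) : ℝ) =
      1 / ((g b).1 : ℝ) * ((g b).2 : ℝ) ^ (-(3 / 2) : ℝ) := by
    intro b hb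
    obtain ⟨h1, h2, h3⟩ := hg b hb
    have hc : (0 : ℝ) < ((g b).1 : ℝ) := by exact_mod_cast h1
    have hd : (0 : ℝ) < ((g b).2 : ℝ) := by exact_mod_cast h2
    have e : (b : ℝ) = ((g b).1 : ℝ) ^ (2 : ℝ) * ((g b).2 : ℝ) ^ (3 : ℝ) := by
      have h4 : (b : ℝ) = ((g b).1 : ℝ) ^ 2 * ((g b).2 : ℝ) ^ 3 := by exact_mod_cast h3
      rw [h4]
      congr 1
      · exact (Real.rpow_natCast _ 2).symm
      · exact (Real.rpow_natCast _ 3).symm
    rw [e, Real.mul_rpow (by positivity) (by positivity), ← Real.rpow_mul hc.le,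
      ← Real.rpow_mul hd.le]
    congr 1
    · rw [show (2 : ℝ) * -(1 / 2) = -1 by norm_num, Real.rpow_neg_one, one_div]
    · congr 1
      norm_num
  rw [Finset.sum_congr rfl hval]
  have hinj : Set.InjOn g ((Finset.Icc 1 N).filter Full : Finset ℕ) := by
    intro b hb b' hb' e
    rw [(hg b hb).2.2, (hg b' hb').2.2, e]
  have h5 : ∑ b ∈ (Finset.Icc 1 N).filter Full,
      1 / ((g b).1 : ℝ) * ((g b).2 : ℝ) ^ (-(3 / 2) : ℝ) =
      ∑ p ∈ ((Finset.Icc 1 N).filter Full).image g, 1 / (p.1 : ℝ) * (p.2 : ℝ) ^ (-(3 / 2) : ℝ) :=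
    (Finset.sum_image (f := fun p : ℕ × ℕ => 1 / (p.1 : ℝ) * (p.2 : ℝ) ^ (-(3 / 2) : ℝ))
      hinj).symm
  rw [h5]
  have h6 : ((Finset.Icc 1 N).filter Full).image g ⊆ (Finset.Icc 1 N) ×ˢ (Finset.Icc 1 N) := by
    intro p hp
    obtain ⟨b, hb, rfl⟩ := Finset.mem_image.mp hp
    obtain ⟨h1, h2, h3⟩ := hg b hb
    have hbN := (Finset.mem_Icc.mp (Finset.mem_filter.mp hb).1).2
    rw [Finset.mem_product, Finset.mem_Icc, Finset.mem_Icc]
    have h7 : (g b).1 ≤ b := by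
      calc (g b).1 ≤ (g b).1 ^ 2 := Nat.le_self_pow (by norm_num) _
        _ ≤ (g b).1 ^ 2 * (g b).2 ^ 3 := Nat.le_mul_of_pos_right _ (by positivity)
        _ = b := h3.symm
    have h8 : (g b).2 ≤ b := by
      calc (g b).2 ≤ (g b).2 ^ 3 := Nat.le_self_pow (by norm_num) _
        _ ≤ (g b).1 ^ 2 * (g b).2 ^ 3 := Nat.le_mul_of_pos_left _ (by positivity)
        _ = b := h3.symm
    exact ⟨⟨h1, h7.trans hbN⟩, ⟨h2, h8.trans hbN⟩⟩
  have hharm : ∑ j ∈ Finset.Icc 1 N, (1 / (j : ℝ)) ≤ 1 + Real.log N := by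
    have h := harmonic_le_one_add_log N
    rw [harmonic_eq_sum_Icc] at h
    push_cast at h
    simpa [one_div] using h
  have hlog : 0 ≤ Real.log N := Real.log_nonneg (by exact_mod_cast hN)
  calc ∑ p ∈ ((Finset.Icc 1 N).filter Full).image g, 1 / (p.1 : ℝ) * (p.2 : ℝ) ^ (-(3 / 2) : ℝ)
      ≤ ∑ p ∈ (Finset.Icc 1 N) ×ˢ (Finset.Icc 1 N),
          1 / (p.1 : ℝ) * (p.2 : ℝ) ^ (-(3 / 2) : ℝ) :=
        Finset.sum_le_sum_of_subset_of_nonneg h6 fun p _ _ => by positivity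
    _ = (∑ c ∈ Finset.Icc 1 N, 1 / (c : ℝ)) * ∑ d ∈ Finset.Icc 1 N, (d : ℝ) ^ (-(3 / 2) : ℝ) := by
        rw [Finset.sum_mul_sum, Finset.sum_product]
    _ ≤ (1 + Real.log N) * ((∑' d : ℕ, (d : ℝ) ^ (-(3 / 2) : ℝ)) + 1) := by
        refine mul_le_mul hharm ?_ (Finset.sum_nonneg fun d _ => by positivity) (by linarith)
        have := hs.sum_le_tsum (Finset.Icc 1 N) (fun d _ => by positivity)
        linarith
    _ = _ := mul_comm _ _

end Pool.Agent.H55.FM
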