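import Pool.Agent.H89.FM.Targets2

/-!
Row TRV of the board fmo_modules (`MP_52e316_nt`): the trivial bound.
-/

set_option autoImplicit false

open Finset

namespace Pool.Agent.H55.FM

open Pool.Agent.H31.CN Pool.Agent.H89.FM

open Classical in
theorem abs_Rn_le (n : ℕ) (hn : 1 ≤ n) (L : Pool.Agent.H89.FM.Lat) (Q : QF) : |Rn n L Q| ≤ n := by
  unfold Rn
  rw [Finset.abs_prod]
  calc ∏ p ∈ n.primeFactors, |if Dv p L Q then (p : ℝ) - 1 else -1|
      ≤ ∏ p ∈ n.primeFactors, (p : ℝ) := by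
        refine Finset.prod_le_prod (fun p _ => abs_nonneg _) fun p hp => ?_
        have h1 : (1 : ℝ) ≤ p := by
          have := (Nat.prime_of_mem_primeFactors hp).one_lt.le
          exact_mod_cast this
        split_ifs
        · rw [abs_of_nonneg (by linarith)]
          linarith
        · rw [abs_neg, abs_one]
          exact h1
    _ ≤ n := by
        have h2 := Nat.le_of_dvd (by omega) (Nat.prod_primeFactors_dvd n)
        rw [← Nat.cast_prod]
        exact Nat.cast_le.mpr h2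

/-- TRV -/
theorem pf_TRV (hCLF : T_CLF) : T_TRV := by
  refine ⟨1, zero_le_one, fun A w Q hA => ⟨?_, ?_⟩⟩
  · unfold Tw
    refine Finset.sum_nonneg fun f _ => Finset.sum_nonneg fun m _ => ?_
    have : 0 ≤ ∑ L ∈ Ls f, |Rn f L Q| := Finset.sum_nonneg fun L _ => abs_nonneg _
    positivity
  · have hN : ((⌊A⌋₊ : ℕ) : ℝ) ≤ A := Nat.floor_le (by linarith)
    have hcard : (((Sq ⌊A⌋₊).card : ℕ) : ℝ) ≤ A := by
      refine le_trans ?_ hN
      have h1 : (Sq ⌊A⌋₊).card ≤ ⌊A⌋₊ := by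
        refine (Finset.card_filter_le _ _).trans ?_
        rw [Nat.card_Icc]
        omega
      exact_mod_cast h1
    have hterm : ∀ f ∈ Sq ⌊A⌋₊, ∀ m ∈ Sq ⌊A⌋₊,
        (1 / ((f : ℝ) ^ 2 * m)) * (∑ L ∈ Ls f, |Rn f L Q|) * |Rn m (Lw m w) Q| ≤ A := by
      intro f hf m hm
      have hf' := Finset.mem_filter.mp hf
      have hm' := Finset.mem_filter.mp hm
      have hf1 : 1 ≤ f := (Finset.mem_Icc.mp hf'.1).1
      have hm1 : 1 ≤ m := (Finset.mem_Icc.mp hm'.1).1
      have hf0 : (0 : ℝ) < f := by exact_mod_cast hf1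
      have hm0 : (0 : ℝ) < m := by exact_mod_cast hm1
      have hfA : (f : ℝ) ≤ A := le_trans (by exact_mod_cast (Finset.mem_Icc.mp hf'.1).2) hN
      have h2 : (((Ls f).card : ℕ) : ℝ) ≤ (f : ℝ) ^ 2 := by
        have h3 := hCLF f hf'.2
        have h4 : 1 ≤ Nat.totient f := Nat.totient_pos.mpr (by omega)
        have h5 : (Ls f).card ≤ f ^ 2 := le_trans (Nat.le_mul_of_pos_right _ (by omega)) h3
        exact_mod_cast h5
      have h6 : ∑ L ∈ Ls f, |Rn f L Q| ≤ (f : ℝ) ^ 2 * f := by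
        calc ∑ L ∈ Ls f, |Rn f L Q| ≤ ∑ _L ∈ Ls f, (f : ℝ) :=
              Finset.sum_le_sum fun L _ => abs_Rn_le f hf1 L Q
          _ = (Ls f).card * f := by rw [Finset.sum_const, nsmul_eq_mul]
          _ ≤ (f : ℝ) ^ 2 * f := mul_le_mul_of_nonneg_right h2 hf0.le
      calc (1 / ((f : ℝ) ^ 2 * m)) * (∑ L ∈ Ls f, |Rn f L Q|) * |Rn m (Lw m w) Q|
          ≤ (1 / ((f : ℝ) ^ 2 * m)) * ((f : ℝ) ^ 2 * f) * m := by
            refine mul_le_mul (mul_le_mul_of_nonneg_left h6 (by positivity))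
              (abs_Rn_le m hm1 _ Q) (abs_nonneg _) (by positivity)
        _ = (f : ℝ) := by field_simp
        _ ≤ A := hfA
    have hA0 : 0 ≤ A := by linarith
    calc Tw A w Q ≤ ∑ _f ∈ Sq ⌊A⌋₊, ∑ _m ∈ Sq ⌊A⌋₊, A :=
          Finset.sum_le_sum fun f hf => Finset.sum_le_sum fun m hm => hterm f hf m hm
      _ = (Sq ⌊A⌋₊).card * ((Sq ⌊A⌋₊).card * A) := by
          simp only [Finset.sum_const, nsmul_eq_mul]
      _ ≤ A * (A * A) := by
          refine mul_le_mul hcard (mul_le_mul_of_nonneg_right hcard hA0) (by positivity) hA0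
      _ = A ^ 3 := by ring
      _ ≤ A ^ 6 := pow_le_pow_right₀ hA (by norm_num)
      _ = 1 * A ^ 6 := (one_mul _).symm

end Pool.Agent.H55.FM
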